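import Pool.Agent.H995R3.Kurepa.Def

set_option autoImplicit false

open Set Cardinal
open Pool.Agent.H995R3.Kurepa

namespace Pool.Agent.Results.MP_47bc22_lc.KurepaCoanalytic

theorem mk_Iio_lt (o : Ordinal.{0}) (ho : o = (aleph 1).ord) (a : o.ToType) :
    #(Iio a) < aleph 1 := by
  subst ho
  exact Cardinal.mk_Iio_toType_ord_lt a

theorem mk_Om : #Om = aleph 1 := by
  rw [Cardinal.mk_toType, Ordinal.card_omega]

theorem like_Om : Like Om := by
  constructor
  · intro a
    have := mk_Iio_lt _ (Cardinal.ord_aleph 1).symm a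
    rw [← Cardinal.le_aleph0_iff_set_countable]
    rwa [← Cardinal.lt_aleph_one_iff]
  · intro hc
    have := Cardinal.mk_le_aleph0_iff.mpr hc
    rw [mk_Om] at this
    exact absurd this (not_le.mpr Cardinal.aleph0_lt_aleph_one)

/-- Under `MA_{ℵ₁}` every `ℵ₁`-tree on `ω₁` with at most `ℵ₁` uncountable branches is special. -/
theorem special_of_MA_Om (hMA : MartinAxiomAleph1) (R : Om → Om → Prop) (hR : IsAleph1Tree R)
    (hb : #(uncBranches R) ≤ aleph 1) : IsSpecial R := by
  have hto := isTreeOrder_iff.mp hR.1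
  have hpc : ∀ b, {a | R a b}.Countable := by
    intro b
    obtain ⟨α, ⟨φ⟩⟩ := hR.2.1 b
    have h1 : Countable {ξ // ξ < α} := (like_Om.cnt α).to_subtype
    have : Countable {a // R a b} := φ.toEquiv.countable_iff.mpr h1
    exact Set.countable_coe_iff.mp this
  exact special_of_MA hMA like_Om mk_Om.le hto hpc (by rw [mk_Om]; exact hb)

/-- **Main result.** Assume `MA_{ℵ₁}`. Let `𝒦` be the set of codes (with respect to any bijection
`e : ω₁ × ω₁ → ω₁` and any two distinct values `zero`, `one`) of regular Kurepa trees on `ω₁`.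
Then `𝒦` is a `Π¹₁`, hence `Δ¹₂`, subset of the generalized Baire space `ω₁ ^ ω₁`; and it is
nonempty as soon as there is a regular Kurepa tree on `ω₁`. -/
theorem result (hMA : MartinAxiomAleph1) (e : Om × Om ≃ Om) (zero one : Om) (h01 : zero ≠ one) :
    IsPi11 Om (kurepaCodes e zero one) ∧ IsDelta12 Om (kurepaCodes e zero one) ∧
      ((∃ R : Om → Om → Prop, IsKurepa R ∧ IsRegular R) → (kurepaCodes e zero one).Nonempty) := by
  classical
  have h1 : IsPi11 Om (kurepaCodes e zero one) :=
    pi_kurepa like_Om mk_Om e h01 fun R hR _ hb => special_of_MA_Om hMA R hR hb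
  refine ⟨h1, delta_of_pi like_Om e h1, ?_⟩
  rintro ⟨R, hR, hreg⟩
  refine ⟨fun η => if R (e.symm η).1 (e.symm η).2 then one else zero, R, ?_, hR, hreg⟩
  intro a b
  constructor
  · intro h
    show (if R (e.symm (e (a, b))).1 (e.symm (e (a, b))).2 then one else zero) = one
    simp [h]
  · intro h
    show (if R (e.symm (e (a, b))).1 (e.symm (e (a, b))).2 then one else zero) = zero
    simp [h]

end Pool.Agent.Results.MP_47bc22_lc.KurepaCoanalytic
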